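import Pool.Agent.H707Z.PVMain

set_option autoImplicit false

namespace Pool.Agent.Results.MP_80c3a1_pr.Tight

open MeasureTheory Filter Topology Pool.Agent.H707Z.PV
open scoped NNReal

/-- For every intensity `lam > 0` and every Poisson point process on the Poincare disk with
intensity `lam` times hyperbolic area, the deviations `D_r`, `0 ≤ r < 1`, form a tight family. -/
theorem result (lam : ℝ≥0) (hlam : 0 < lam) (Ω : Type) [MeasurableSpace Ω] (P : Measure Ω)
    [IsProbabilityMeasure P] (X : Ω → Set ℂ) (hX : IsPoissonProcess P (lam • harea) X) :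
    Tendsto (fun M : ℕ => ⨆ r ∈ Set.Ico (0 : ℝ) 1, P {ω | (M : ℕ∞) < deviation (X ω) r})
      atTop (𝓝 0) :=
  tight lam hlam P X hX

end Pool.Agent.Results.MP_80c3a1_pr.Tight
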